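import Pool.Agent.Q37.MG.Pairs
import Pool.Agent.Q37.BV.Tit

/-! The number of divisors of the differences of equivalent integers. -/

set_option autoImplicit false

namespace Pool.Agent.Q37.MG

open Finset Pool.Agent.Q37.BV Pool.Agent.H499R2.CO

theorem div_card {m n N : ℕ} (hm : m ∈ Icc 1 N) (hn : n ∈ Icc 1 N) :
    (#(Nat.divisors ((m : ℤ) - n).natAbs) : ℝ) =
      #((Icc 1 N).filter (fun q : ℕ => m % q = n % q)) - if m = n then (N : ℝ) else 0 := by
  rw [mem_Icc] at hm hn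
  by_cases h : m = n
  · subst h
    rw [if_pos rfl, sub_self, Int.natAbs_zero, Nat.divisors_zero, card_empty]
    have : (Icc 1 N).filter (fun q : ℕ => m % q = m % q) = Icc 1 N := filter_true_of_mem fun _ _ => rfl
    rw [this, Nat.card_Icc, Nat.add_sub_cancel]
    simp
  · rw [if_neg h, sub_zero]
    congr 2
    ext q
    rw [Nat.mem_divisors, mem_filter, mem_Icc]
    have h1 : ((m : ℤ) - n).natAbs ≠ 0 := by
      rw [Int.natAbs_ne_zero, sub_ne_zero]
      exact_mod_cast h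
    have h2 : q ∣ ((m : ℤ) - n).natAbs ↔ m % q = n % q := by
      rw [← Int.natCast_dvd]
      constructor
      · intro h3
        have h4 : (n : ℤ) ≡ m [ZMOD q] := Int.modEq_iff_dvd.2 h3
        exact ((Int.natCast_modEq_iff).1 h4).symm
      · intro h3
        have h4 : n ≡ m [MOD q] := h3.symm
        exact Int.modEq_iff_dvd.1 ((Int.natCast_modEq_iff).2 h4)
    constructor
    · rintro ⟨h3, _⟩
      have h4 : 0 < q := Nat.pos_of_dvd_of_pos h3 (Nat.pos_of_ne_zero h1)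
      have h5 : q ≤ ((m : ℤ) - n).natAbs := Nat.le_of_dvd (Nat.pos_of_ne_zero h1) h3
      exact ⟨⟨h4, by omega⟩, h2.1 h3⟩
    · rintro ⟨_, h3⟩
      exact ⟨h2.2 h3, h1⟩

section

variable {α : Type} [DecidableEq α] (π : ℤ → α) (s : ℤ) (N : ℕ)

theorem div_sum : (∑ m ∈ Icc 1 N, ∑ n ∈ Icc 1 N, if π (s * (m : ℤ)) = π (s * (n : ℤ)) then
      (#(Nat.divisors ((m : ℤ) - n).natAbs) : ℝ) else 0) = ∑ q ∈ Icc 1 N, (#(pr π s N q) : ℝ) - N ^ 2 := by
  have e1 : ∀ m ∈ Icc 1 N, (∑ n ∈ Icc 1 N, if π (s * (m : ℤ)) = π (s * (n : ℤ)) then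
      (#(Nat.divisors ((m : ℤ) - n).natAbs) : ℝ) else 0) =
      ∑ q ∈ Icc 1 N, ∑ n ∈ Icc 1 N, (if m % q = n % q ∧ π (s * (m : ℤ)) = π (s * (n : ℤ)) then (1 : ℝ) else 0) - N := by
    intro m hm
    have e2 : (N : ℝ) = ∑ n ∈ Icc 1 N, if m = n then (N : ℝ) else 0 := by
      rw [sum_ite_eq, if_pos hm]
    rw [sum_comm]
    conv_rhs => rw [e2]
    rw [← sum_sub_distrib]
    apply sum_congr rfl
    intro n hn
    by_cases h : π (s * (m : ℤ)) = π (s * (n : ℤ))
    · rw [if_pos h, div_card hm hn, card_filter]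
      push_cast
      congr 1
      apply sum_congr rfl
      intro q _
      by_cases h3 : m % q = n % q
      · rw [if_pos h3, if_pos ⟨h3, h⟩]
      · rw [if_neg h3, if_neg (fun h4 => h3 h4.1)]
    · have hmn : m ≠ n := by rintro rfl; exact h rfl
      rw [if_neg h, if_neg hmn, sub_zero]
      symm
      apply sum_eq_zero
      intro q _
      rw [if_neg (fun h4 => h h4.2)]
  rw [sum_congr rfl e1, sum_sub_distrib, sum_const, Nat.card_Icc, Nat.add_sub_cancel, nsmul_eq_mul, sum_comm, sq]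
  congr 1
  apply sum_congr rfl
  intro q _
  unfold pr
  rw [card_filter, sum_product]
  push_cast
  rfl

theorem pr_one_le : (#(pr π s N 1) : ℝ) ≤ N ^ 2 := by
  have : #(pr π s N 1) ≤ N * N := by
    unfold pr
    refine (card_filter_le _ _).trans ?_
    rw [card_product, Nat.card_Icc, Nat.add_sub_cancel]
  rw [sq]
  exact_mod_cast this

end

theorem div_main {ε : ℝ} (hε : 0 < ε) : ∃ N₀ : ℕ, ∀ (α : Type) (_ : DecidableEq α) (π : ℤ → α),
    (∀ x : ℤ, π (Tz 1 x) = π x) → ∀ s : ℤ, s = 1 ∨ s = -1 → ∀ N : ℕ, N₀ ≤ N →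
      |(∑ m ∈ Icc 1 N, ∑ n ∈ Icc 1 N, if π (s * (m : ℤ)) = π (s * (n : ℤ)) then
        (#(Nat.divisors ((m : ℤ) - n).natAbs) : ℝ) else 0) - #(pr π s N 1) * Real.log N| ≤
          ε * N ^ 2 * Real.log N := by
  obtain ⟨N₁, h1⟩ := pr_main (show 0 < ε / 8 by positivity)
  obtain ⟨N₂, h2⟩ := (Real.tendsto_log_atTop.comp tendsto_natCast_atTop_atTop).eventually_ge_atTop
    ((578 + ε / 8) / (ε / 2)) |>.exists_forall_of_atTop
  refine ⟨max (max N₁ N₂) 2, fun α _ π hπ s hs N hN => ?_⟩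
  have hN1 : N₁ ≤ N := ((le_max_left _ _).trans (le_max_left _ _)).trans hN
  have hN2 : N₂ ≤ N := ((le_max_right _ _).trans (le_max_left _ _)).trans hN
  have hN3 : 2 ≤ N := (le_max_right _ _).trans hN
  have hlog := h2 N hN2
  simp only [Function.comp_apply] at hlog
  rw [div_le_iff₀ (by positivity)] at hlog
  have hN0 : (0 : ℝ) < N := by exact_mod_cast (show 0 < N by omega)
  rw [div_sum]
  set P : ℝ := (#(pr π s N 1) : ℝ) with hP
  have hP0 : 0 ≤ P := Nat.cast_nonneg _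
  have hP1 : P ≤ N ^ 2 := pr_one_le π s N
  have e1 : ∑ q ∈ Icc 1 N, (#(pr π s N q) : ℝ) =
      P * ∑ q ∈ Icc 1 N, 1 / (q : ℝ) + ∑ q ∈ Icc 1 N, ((#(pr π s N q) : ℝ) - P / q) := by
    rw [mul_sum, ← sum_add_distrib]
    apply sum_congr rfl
    intro q _
    ring
  set h : ℝ := ∑ q ∈ Icc 1 N, 1 / (q : ℝ) with hh
  have hh2 : ((harmonic N : ℚ) : ℝ) = h := by
    rw [harmonic_eq_sum_Icc, hh]
    push_cast
    apply sum_congr rfl
    intro q _
    rw [one_div]
  have hh3 := harmonic_le_one_add_log N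
  have hh4 := log_add_one_le_harmonic N
  rw [hh2] at hh3 hh4
  have hh5 : Real.log N ≤ Real.log (((N + 1 : ℕ)) : ℝ) := by
    apply Real.log_le_log hN0
    push_cast
    linarith
  have hh6 : |P * h - P * Real.log N| ≤ N ^ 2 := by
    rw [← mul_sub, abs_mul, abs_of_nonneg hP0, abs_of_nonneg (by push_cast at hh4 hh5; linarith)]
    calc P * (h - Real.log N) ≤ N ^ 2 * 1 := by
          apply mul_le_mul hP1 (by linarith) (by push_cast at hh4 hh5; linarith) (by positivity)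
      _ = N ^ 2 := mul_one _
  set I := Nat.log 2 N + 1 with hI
  have hI2 : (I : ℝ) ≤ 2 * Real.log N + 1 := by
    have g1 : ((2 : ℝ)) ^ (Nat.log 2 N) ≤ N := by exact_mod_cast Nat.pow_log_le_self 2 (by omega : N ≠ 0)
    have g2 := Real.log_le_log (by positivity) g1
    rw [Real.log_pow] at g2
    have g3 : (0 : ℝ) ≤ (Nat.log 2 N : ℝ) := Nat.cast_nonneg _
    have g4 := Real.log_two_gt_d9
    rw [hI]
    push_cast
    nlinarith
  have h5 : |∑ q ∈ Icc 1 N, ((#(pr π s N q) : ℝ) - P / q)| ≤ ε / 8 * N ^ 2 * I + 576 * N ^ 2 := by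
    refine (abs_sum_le_sum_abs _ _).trans ?_
    refine (dyadic N (fun q => |(#(pr π s N q) : ℝ) - P / q|) (fun _ => abs_nonneg _)).trans ?_
    calc ∑ i ∈ range (Nat.log 2 N + 1), ∑ q ∈ Ico (2 ^ i) (2 * 2 ^ i), |(#(pr π s N q) : ℝ) - P / q|
        ≤ ∑ i ∈ range (Nat.log 2 N + 1), (ε / 8 * N + 288 * ((2 ^ i : ℕ) : ℝ)) * N := by
          apply sum_le_sum
          intro i _
          exact h1 α _ π hπ s hs N hN1 (2 ^ i) Nat.one_le_two_pow
      _ = ε / 8 * N ^ 2 * I + 288 * N * ∑ i ∈ range (Nat.log 2 N + 1), (2 : ℝ) ^ i := by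
          rw [mul_sum, hI]
          have : ∀ i : ℕ, (ε / 8 * N + 288 * ((2 ^ i : ℕ) : ℝ)) * N = ε / 8 * N ^ 2 + 288 * N * 2 ^ i := by
            intro i; push_cast; ring
          rw [sum_congr rfl (fun i _ => this i), sum_add_distrib, sum_const, card_range, nsmul_eq_mul]
          ring
      _ ≤ ε / 8 * N ^ 2 * I + 576 * N ^ 2 := by
          have h4 : ∑ i ∈ range (Nat.log 2 N + 1), (2 : ℝ) ^ i ≤ 2 * N := by
            calc ∑ i ∈ range (Nat.log 2 N + 1), (2 : ℝ) ^ i = 2 ^ (Nat.log 2 N + 1) - 1 := by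
                  rw [geom_sum_eq (by norm_num)]; norm_num
              _ ≤ 2 * N := by
                  have : ((2 ^ Nat.log 2 N : ℕ) : ℝ) ≤ N := by exact_mod_cast Nat.pow_log_le_self 2 (by omega)
                  push_cast at this
                  rw [pow_succ]
                  linarith
          have h6 : 288 * (N : ℝ) * ∑ i ∈ range (Nat.log 2 N + 1), (2 : ℝ) ^ i ≤ 288 * N * (2 * N) :=
            mul_le_mul_of_nonneg_left h4 (by positivity)
          nlinarith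
  rw [e1]
  have h6 : P * h + ∑ q ∈ Icc 1 N, ((#(pr π s N q) : ℝ) - P / q) - N ^ 2 - P * Real.log N =
      (P * h - P * Real.log N) + ∑ q ∈ Icc 1 N, ((#(pr π s N q) : ℝ) - P / q) - N ^ 2 := by ring
  rw [h6]
  have h7 : ε / 8 * (N : ℝ) ^ 2 * I ≤ ε / 8 * N ^ 2 * (2 * Real.log N + 1) :=
    mul_le_mul_of_nonneg_left hI2 (by positivity)
  have h8 : (578 + ε / 8) * (N : ℝ) ^ 2 ≤ (Real.log N * (ε / 2)) * N ^ 2 :=
    mul_le_mul_of_nonneg_right hlog (by positivity)
  have h9 : 0 ≤ ε * (N : ℝ) ^ 2 * Real.log N :=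
    mul_nonneg (by positivity) (Real.log_natCast_nonneg N)
  calc |(P * h - P * Real.log N) + ∑ q ∈ Icc 1 N, ((#(pr π s N q) : ℝ) - P / q) - N ^ 2|
      ≤ |P * h - P * Real.log N| + |∑ q ∈ Icc 1 N, ((#(pr π s N q) : ℝ) - P / q)| + |(N : ℝ) ^ 2| := by
        refine (abs_sub _ _).trans ?_
        linarith [abs_add_le (P * h - P * Real.log N) (∑ q ∈ Icc 1 N, ((#(pr π s N q) : ℝ) - P / q))]
    _ ≤ N ^ 2 + (ε / 8 * N ^ 2 * I + 576 * N ^ 2) + N ^ 2 := by
        rw [abs_of_nonneg (show (0 : ℝ) ≤ (N : ℝ) ^ 2 by positivity)]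
        linarith
    _ ≤ ε * N ^ 2 * Real.log N := by nlinarith

end Pool.Agent.Q37.MG
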