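import Pool.Agent.Q37.BV.BdhLin

/-! Pairs of equivalent integers in the same residue class, for equivalence relations for which `x`
and `T x` are equivalent. -/

set_option autoImplicit false

namespace Pool.Agent.Q37.MG

open Finset Pool.Agent.Q37.BV Pool.Agent.H499R2.CO

section

variable {α : Type} [DecidableEq α] (π : ℤ → α) (s : ℤ) (N : ℕ)

/-- the numbers `n ≤ N`, `n ≡ a` modulo `q`, with `s n` of colour `c` -/
def fib (q : ℕ) (c : α) (a : ℕ) : Finset ℕ :=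
  (Icc 1 N).filter (fun n : ℕ => n % q = a ∧ π (s * (n : ℤ)) = c)

/-- the numbers `n ≤ N` with `s n` of colour `c` -/
def tot (c : α) : Finset ℕ := (Icc 1 N).filter (fun n : ℕ => π (s * (n : ℤ)) = c)

/-- the colours -/
def cols : Finset α := (Icc 1 N).image (fun n : ℕ => π (s * (n : ℤ)))

/-- the pairs of the same colour, congruent modulo `q` -/
def pr (q : ℕ) : Finset (ℕ × ℕ) :=
  (Icc 1 N ×ˢ Icc 1 N).filter (fun p : ℕ × ℕ => p.1 % q = p.2 % q ∧ π (s * (p.1 : ℤ)) = π (s * (p.2 : ℤ)))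

theorem sum_fib {q : ℕ} (hq : 1 ≤ q) (c : α) : ∑ a ∈ range q, #(fib π s N q c a) = #(tot π s N c) := by
  unfold fib tot
  rw [card_eq_sum_card_fiberwise (f := fun n : ℕ => n % q) (t := range q)]
  · apply sum_congr rfl
    intro a _
    rw [filter_filter]
    congr 1
    apply filter_congr
    intro n _
    constructor
    · rintro ⟨h1, h2⟩; exact ⟨h2, h1⟩
    · rintro ⟨h1, h2⟩; exact ⟨h2, h1⟩
  · intro n _
    simp only [coe_range, Set.mem_Iio]
    exact Nat.mod_lt _ (by omega)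

theorem sum_tot : ∑ c ∈ cols π s N, #(tot π s N c) = N := by
  unfold tot cols
  have h := card_eq_sum_card_fiberwise (s := Icc 1 N) (f := fun n : ℕ => π (s * (n : ℤ)))
    (t := (Icc 1 N).image (fun n : ℕ => π (s * (n : ℤ)))) (by
      intro n hn
      rw [mem_coe] at hn ⊢
      exact mem_image_of_mem _ hn)
  rw [Nat.card_Icc, Nat.add_sub_cancel] at h
  exact h.symm

theorem card_pr {q : ℕ} (hq : 1 ≤ q) :
    #(pr π s N q) = ∑ c ∈ cols π s N, ∑ a ∈ range q, #(fib π s N q c a) ^ 2 := by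
  have h := card_eq_sum_card_fiberwise (s := pr π s N q)
    (f := fun p : ℕ × ℕ => (π (s * (p.1 : ℤ)), p.1 % q)) (t := cols π s N ×ˢ range q) (by
      intro p hp
      rw [mem_coe] at hp ⊢
      unfold pr at hp
      rw [mem_filter, mem_product] at hp
      rw [mem_product]
      exact ⟨mem_image_of_mem (fun n : ℕ => π (s * (n : ℤ))) hp.1.1, mem_range.2 (Nat.mod_lt _ (by omega))⟩)
  rw [h, sum_product]
  apply sum_congr rfl
  intro c _
  apply sum_congr rfl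
  intro a _
  rw [sq, ← card_product]
  congr 1
  ext ⟨m, n⟩
  unfold pr fib
  simp only [mem_filter, mem_product, Prod.mk.injEq]
  constructor
  · rintro ⟨⟨⟨h1, h2⟩, h3, h4⟩, h5, h6⟩
    exact ⟨⟨h1, h6, h5⟩, h2, by rw [← h3]; exact h6, by rw [← h4]; exact h5⟩
  · rintro ⟨⟨h1, h6, h5⟩, h2, h7, h8⟩
    exact ⟨⟨⟨h1, h2⟩, by rw [h6, h7], by rw [h5, h8]⟩, h5, h6⟩

theorem card_pr_one : #(pr π s N 1) = ∑ c ∈ cols π s N, #(tot π s N c) ^ 2 := by
  rw [card_pr π s N le_rfl]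
  apply sum_congr rfl
  intro c _
  rw [sum_range_one]
  congr 2
  unfold fib tot
  apply filter_congr
  intro n _
  rw [Nat.mod_one]
  simp

theorem dF_eq' {q : ℕ} (hq : 1 ≤ q) (c : α) {a : ℕ} (ha : a < q) :
    dF (FS {x : ℤ | π x = c} s) N q (a : ℤ) = (#(fib π s N q c a) : ℝ) - #(tot π s N c) / q := by
  unfold dF bal
  rw [sum_Ico_nat]
  have e1 : ∀ n ∈ Icc 1 N, (ind q (a : ℤ) ((n : ℕ) : ℤ) - 1 / q) * FS {x : ℤ | π x = c} s ((n : ℕ) : ℤ) =
      (if n % q = a ∧ π (s * (n : ℤ)) = c then (1 : ℝ) else 0) -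
        (if π (s * (n : ℤ)) = c then (1 : ℝ) else 0) / q := by
    intro n hn
    rw [mem_Icc] at hn
    have h0 : (1 : ℤ) ≤ (n : ℤ) := by exact_mod_cast hn.1
    have h1 : (q : ℤ) ∣ (n : ℤ) - a ↔ n % q = a := by
      constructor
      · intro h
        have h2 : (n : ℤ) ≡ a [ZMOD q] := (Int.modEq_iff_dvd.2 h).symm
        have h3 : n ≡ a [MOD q] := (Int.natCast_modEq_iff).1 h2
        unfold Nat.ModEq at h3
        rw [h3, Nat.mod_eq_of_lt ha]
      · intro h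
        have h3 : n ≡ a [MOD q] := by
          unfold Nat.ModEq
          rw [h, Nat.mod_eq_of_lt ha]
        have h2 : (n : ℤ) ≡ a [ZMOD q] := (Int.natCast_modEq_iff).2 h3
        exact Int.modEq_iff_dvd.1 h2.symm
    unfold ind FS
    by_cases h2 : π (s * (n : ℤ)) = c
    · by_cases h3 : n % q = a
      · rw [if_pos (h1.2 h3), if_pos ⟨h0, h2⟩, if_pos ⟨h3, h2⟩, if_pos h2]; ring
      · rw [if_neg (fun h => h3 (h1.1 h)), if_pos ⟨h0, h2⟩, if_neg (fun h => h3 h.1), if_pos h2]; ring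
    · rw [if_neg (fun h : 1 ≤ (n : ℤ) ∧ s * (n : ℤ) ∈ {x : ℤ | π x = c} => h2 h.2),
        if_neg (fun h : n % q = a ∧ π (s * (n : ℤ)) = c => h2 h.2), if_neg h2]; ring
  rw [sum_congr rfl e1, sum_sub_distrib, ← sum_div]
  unfold fib tot
  rw [card_filter, card_filter]
  push_cast
  rfl

theorem FS_sum (c : α) : ∑ n ∈ Icc 1 N, FS {x : ℤ | π x = c} s ((n : ℕ) : ℤ) = (#(tot π s N c) : ℝ) := by
  unfold tot
  rw [card_filter]
  push_cast
  apply sum_congr rfl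
  intro n hn
  rw [mem_Icc] at hn
  have h0 : (1 : ℤ) ≤ (n : ℤ) := by exact_mod_cast hn.1
  unfold FS
  by_cases h2 : π (s * (n : ℤ)) = c
  · rw [if_pos ⟨h0, h2⟩, if_pos h2]
  · rw [if_neg (fun h : 1 ≤ (n : ℤ) ∧ s * (n : ℤ) ∈ {x : ℤ | π x = c} => h2 h.2), if_neg h2]

theorem pr_sub {q : ℕ} (hq : 1 ≤ q) : (#(pr π s N q) : ℝ) - #(pr π s N 1) / q =
    ∑ c ∈ cols π s N, ∑ a ∈ range q, (dF (FS {x : ℤ | π x = c} s) N q ((a : ℕ) : ℤ)) ^ 2 := by
  have hq0 : (q : ℝ) ≠ 0 := by exact_mod_cast (show q ≠ 0 by omega)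
  rw [card_pr π s N hq, card_pr_one π s N]
  push_cast
  rw [sum_div, ← sum_sub_distrib]
  apply sum_congr rfl
  intro c _
  have e1 : ∀ a ∈ range q, (dF (FS {x : ℤ | π x = c} s) N q ((a : ℕ) : ℤ)) ^ 2 =
      (#(fib π s N q c a) : ℝ) ^ 2 - 2 * (#(tot π s N c) / q) * #(fib π s N q c a) + (#(tot π s N c) / q) ^ 2 := by
    intro a ha
    rw [mem_range] at ha
    rw [dF_eq' π s N hq c ha]
    ring
  rw [sum_congr rfl e1, sum_add_distrib, sum_sub_distrib, ← mul_sum, sum_const, card_range, nsmul_eq_mul]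
  have e2 : ∑ a ∈ range q, (#(fib π s N q c a) : ℝ) = #(tot π s N c) := by
    exact_mod_cast sum_fib π s N hq c
  rw [e2]
  field_simp
  ring

theorem inv_col (hπ : ∀ x : ℤ, π (Tz 1 x) = π x) (c : α) : InvZ {x : ℤ | π x = c} := by
  intro x
  show π x = c ↔ π (Tz 1 x) = c
  rw [hπ]

end

theorem pr_main {ε : ℝ} (hε : 0 < ε) : ∃ N₀ : ℕ, ∀ (α : Type) (_ : DecidableEq α) (π : ℤ → α),
    (∀ x : ℤ, π (Tz 1 x) = π x) → ∀ s : ℤ, s = 1 ∨ s = -1 → ∀ N : ℕ, N₀ ≤ N → ∀ Q : ℕ, 1 ≤ Q →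
      ∑ q ∈ Ico Q (2 * Q), |(#(pr π s N q) : ℝ) - #(pr π s N 1) / q| ≤ (ε * N + 288 * Q) * N := by
  obtain ⟨N₀, h⟩ := bdh_lin hε
  refine ⟨N₀, fun α _ π hπ s hs N hN Q hQ => ?_⟩
  have e1 : ∀ q ∈ Ico Q (2 * Q), |(#(pr π s N q) : ℝ) - #(pr π s N 1) / q| =
      ∑ c ∈ cols π s N, ∑ a ∈ range q, (dF (FS {x : ℤ | π x = c} s) N q ((a : ℕ) : ℤ)) ^ 2 := by
    intro q hq
    rw [mem_Ico] at hq
    rw [pr_sub π s N (by omega), abs_of_nonneg]
    exact sum_nonneg fun _ _ => sum_nonneg fun _ _ => sq_nonneg _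
  rw [sum_congr rfl e1, sum_comm]
  calc ∑ c ∈ cols π s N, ∑ q ∈ Ico Q (2 * Q), ∑ a ∈ range q,
        (dF (FS {x : ℤ | π x = c} s) N q ((a : ℕ) : ℤ)) ^ 2
      ≤ ∑ c ∈ cols π s N, (ε * N + 288 * Q) * (#(tot π s N c) : ℝ) := by
        apply sum_le_sum
        intro c _
        rw [← FS_sum π s N c]
        exact h s hs _ (FS_win (inv_col π hπ c) hs) N hN Q hQ
    _ = (ε * N + 288 * Q) * N := by
        rw [← mul_sum]
        congr 1
        exact_mod_cast sum_tot π s N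

end Pool.Agent.Q37.MG
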